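import Pool.Agent.Lib.Z78.Zee99

open Set Pool.Agent.Lib.MP_e11f15_gt Pool.Agent.Lib.Z78

namespace Pool.Agent.Results.MP_e11f15_gt.AnyFace

theorem result : ∃ (N : ℕ) (K L : Set (Fin N → ℝ)),
    IsTwoPolyhedron K ∧ IsTwoPolyhedron L ∧ IsConnected K ∧ IsConnected L ∧
    PLHomeomorphic K {x ∈ stdSimplex ℝ (Fin 4) | ∃ i, x i = 0} ∧ IsFakeSurface L ∧
    Deform3 K L ∧
    (¬ ∃ L' : Set ((Fin N → ℝ) × ℝ), PLHomeomorphic L L' ∧ Coll (K ×ˢ Icc 0 1) L') ∧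
    (¬ ∃ K' : Set ((Fin N → ℝ) × ℝ), PLHomeomorphic K K' ∧ Coll (L ×ˢ Icc 0 1) K') :=
  T99.main

end Pool.Agent.Results.MP_e11f15_gt.AnyFace
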